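import Pool.Agent.W912.EC.Defs2

/-!
# S_NUM2
-/

set_option autoImplicit false

namespace Pool.Agent.W976.EC

open Pool.Agent.NPC Pool.Agent.H620R2.Gauge Pool.Agent.H622R2.Exp Pool.Agent.H622R2.Ckt
open Pool.Agent.W900.CH Pool.Agent.W912.EC
open MeasureTheory Filter

theorem real_part (a b : ℕ) (c : ℝ) (hb : 0 < b) (hc : 1 ≤ c) (hac : (a : ℝ) * c < b) :
    ∃ n₀ : ℕ, ∀ n ≥ n₀, ∀ K s : ℕ, K = 2 ^ (a * n / b) →
      (s : ℝ) ≤ ((K + n + 1 : ℕ) : ℝ) ^ c →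
      (2 * n + 2) * s + (n + 4) * (4 * K + 4) + n ≤ 2 ^ n := by
  have hbR : (0 : ℝ) < b := by exact_mod_cast hb
  obtain ⟨θ, hθd⟩ : ∃ θ : ℝ, θ = a * c / b := ⟨_, rfl⟩
  have hθ : θ < 1 := by
    rw [hθd]
    exact (div_lt_one hbR).2 hac
  have hθ0 : 0 ≤ θ := by
    rw [hθd]
    positivity
  obtain ⟨β, hβd⟩ : ∃ β : ℝ, β = (1 - θ) * Real.log 2 := ⟨_, rfl⟩
  have hβ : 0 < β := by
    rw [hβd]
    exact mul_pos (by linarith) (Real.log_pos (by norm_num))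
  have h1 := (isLittleO_rpow_exp_pos_mul_atTop (c + 1) hβ).bound
    (c := 1 / (11 * Real.exp (4 * β))) (by positivity)
  obtain ⟨x0, hx0⟩ := eventually_atTop.1 h1
  refine ⟨⌈x0⌉₊, fun n hn K s hK hs => ?_⟩
  have hn0 : (0 : ℝ) ≤ n := Nat.cast_nonneg n
  have hn' : x0 ≤ (n : ℝ) + 4 := by
    have e1 : x0 ≤ (n : ℝ) := (Nat.le_ceil _).trans (by exact_mod_cast hn)
    linarith
  have h2 := hx0 _ hn'
  have e0 : (0 : ℝ) ≤ ((n : ℝ) + 4) ^ (c + 1) := Real.rpow_nonneg (by linarith) _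
  rw [Real.norm_of_nonneg e0, Real.norm_of_nonneg (Real.exp_nonneg _)] at h2
  have h3 : 11 * ((n : ℝ) + 4) ^ (c + 1) ≤ Real.exp (β * n) := by
    have e1 : Real.exp (β * ((n : ℝ) + 4)) = Real.exp (β * n) * Real.exp (4 * β) := by
      rw [← Real.exp_add]
      congr 1
      ring
    rw [e1] at h2
    have e2 : 0 < Real.exp (4 * β) := Real.exp_pos _
    calc 11 * ((n : ℝ) + 4) ^ (c + 1) ≤
        11 * (1 / (11 * Real.exp (4 * β)) * (Real.exp (β * n) * Real.exp (4 * β))) := by linarith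
      _ = Real.exp (β * n) := by
        field_simp
  -- the bound for `K`
  obtain ⟨y, hy⟩ : ∃ y : ℝ, y = (a : ℝ) * n / b := ⟨_, rfl⟩
  have hy0 : 0 ≤ y := by
    rw [hy]
    positivity
  have hKy : (K : ℝ) ≤ 2 ^ y := by
    rw [hK]
    push_cast
    rw [← Real.rpow_natCast]
    refine Real.rpow_le_rpow_of_exponent_le (by norm_num) ?_
    rw [hy]
    have := Nat.cast_div_le (α := ℝ) (m := a * n) (n := b)
    push_cast at this
    exact this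
  have h2y : (1 : ℝ) ≤ 2 ^ y := Real.one_le_rpow (by norm_num) hy0
  obtain ⟨Θ, hΘ⟩ : ∃ Θ : ℝ, Θ = (2 : ℝ) ^ (θ * n) := ⟨_, rfl⟩
  have hyθ : y ≤ θ * n := by
    rw [hy, hθd]
    rw [div_mul_eq_mul_div]
    refine div_le_div_of_nonneg_right ?_ hbR.le
    have : (a : ℝ) * n ≤ a * n * c := le_mul_of_one_le_right (by positivity) hc
    linarith
  have hyc : y * c = θ * n := by
    rw [hy, hθd]
    ring
  have hΘ1 : 1 ≤ Θ := by
    rw [hΘ]
    exact Real.one_le_rpow (by norm_num) (by positivity)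
  have hKΘ : (K : ℝ) ≤ Θ := by
    refine hKy.trans ?_
    rw [hΘ]
    exact Real.rpow_le_rpow_of_exponent_le (by norm_num) hyθ
  have hsΘ : (s : ℝ) ≤ ((n : ℝ) + 4) ^ c * Θ := by
    refine hs.trans ?_
    have e1 : ((K + n + 1 : ℕ) : ℝ) ≤ ((n : ℝ) + 4) * 2 ^ y := by
      push_cast
      nlinarith
    calc ((K + n + 1 : ℕ) : ℝ) ^ c ≤ (((n : ℝ) + 4) * 2 ^ y) ^ c :=
          Real.rpow_le_rpow (Nat.cast_nonneg _) e1 (by linarith)
      _ = ((n : ℝ) + 4) ^ c * Θ := by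
          rw [Real.mul_rpow (by linarith) (by positivity), ← Real.rpow_mul (by norm_num), hyc, hΘ]
  have hP : ((n : ℝ) + 4) ^ (c + 1) = ((n : ℝ) + 4) ^ c * ((n : ℝ) + 4) :=
    Real.rpow_add_one (by linarith) _
  have hc1 : (1 : ℝ) ≤ ((n : ℝ) + 4) ^ c := Real.one_le_rpow (by linarith) (by linarith)
  obtain ⟨R, hR⟩ : ∃ R : ℝ, R = ((n : ℝ) + 4) ^ c := ⟨_, rfl⟩
  rw [← hR] at hsΘ hP hc1
  rw [hP] at h3
  have hE : (((2 * n + 2) * s + (n + 4) * (4 * K + 4) + n : ℕ) : ℝ) ≤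
      11 * (R * ((n : ℝ) + 4)) * Θ := by
    push_cast
    have e1 : (2 * (n : ℝ) + 2) * s ≤ 2 * ((n : ℝ) + 4) * (R * Θ) :=
      mul_le_mul (by linarith) hsΘ (Nat.cast_nonneg _) (by linarith)
    have e2 : ((n : ℝ) + 4) * (4 * K + 4) ≤ ((n : ℝ) + 4) * (8 * Θ) :=
      mul_le_mul_of_nonneg_left (by linarith) (by linarith)
    have e3 : ((n : ℝ) + 4) * Θ ≤ R * (((n : ℝ) + 4) * Θ) :=
      le_mul_of_one_le_left (by positivity) hc1
    have e4 : (n : ℝ) ≤ ((n : ℝ) + 4) * Θ := by nlinarith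
    nlinarith
  have hfin : 11 * (R * ((n : ℝ) + 4)) * Θ ≤ 2 ^ n := by
    have e1 : Real.exp (β * n) * Θ = 2 ^ n := by
      rw [hΘ, hβd, Real.rpow_def_of_pos (by norm_num), ← Real.exp_add,
        ← Real.rpow_natCast, Real.rpow_def_of_pos (by norm_num)]
      congr 1
      ring
    rw [← e1]
    exact mul_le_mul_of_nonneg_right h3 (by linarith)
  exact_mod_cast hE.trans hfin

theorem num2 : S_NUM2 := by
  intro a b c hb hc hac
  obtain ⟨n₀, hn₀⟩ := real_part a b c hb hc hac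
  refine ⟨n₀, fun n hn K s hK hs => ?_⟩
  have h1 := hn₀ n hn K s hK hs
  have hab : a < b := by
    have h2 : (a : ℝ) < b := lt_of_le_of_lt (le_mul_of_one_le_right (Nat.cast_nonneg a) hc) hac
    exact_mod_cast h2
  have hK2 : K ≤ 2 ^ n := by
    rw [hK]
    refine Nat.pow_le_pow_right (by norm_num) ?_
    refine Nat.div_le_of_le_mul ?_
    exact Nat.mul_le_mul_right n hab.le
  have hpos : 1 ≤ 2 ^ n := Nat.one_le_two_pow
  have hn2 : n ≤ 2 ^ n := Nat.lt_two_pow_self.le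
  have e1 : 2 ^ n * (K + 1) + 1 ≤ 2 ^ (2 * n + 2) := by
    have : 2 ^ (2 * n + 2) = 4 * (2 ^ n * 2 ^ n) := by ring
    rw [this]
    nlinarith
  have e2 : n + K + 8 ≤ 2 ^ (n + 4) := by
    have : 2 ^ (n + 4) = 16 * 2 ^ n := by ring
    omega
  calc (2 ^ n * (K + 1) + 1) ^ s * nC n K * 2 ^ n ≤
      (2 ^ (2 * n + 2)) ^ s * (2 ^ (n + 4)) ^ (4 * K + 4) * 2 ^ n := by
        refine Nat.mul_le_mul_right _ (Nat.mul_le_mul (Nat.pow_le_pow_left e1 s) ?_)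
        exact Nat.pow_le_pow_left e2 _
    _ = 2 ^ ((2 * n + 2) * s + (n + 4) * (4 * K + 4) + n) := by
        rw [← pow_mul, ← pow_mul, ← pow_add, ← pow_add]
    _ ≤ 2 ^ 2 ^ n := Nat.pow_le_pow_right (by norm_num) h1

end Pool.Agent.W976.EC
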